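import Mathlib

/-!
# Families with the same multiset of values; orbits of colourings
-/

set_option autoImplicit false

namespace Pool.Agent.Helper12.MS

theorem exists_perm_of_map_eq {D : ℕ} {α : Type*} [DecidableEq α] (f g : Fin D → α)
    (h : Finset.univ.val.map f = Finset.univ.val.map g) : ∃ σ : Equiv.Perm (Fin D), ∀ i, g (σ i) = f i := by
  classical
  have key : ∀ a, Nonempty ({i // f i = a} ≃ {i // g i = a}) := by
    intro a
    apply Fintype.card_eq.1
    rw [Fintype.card_subtype, Fintype.card_subtype]
    have h1 := congrArg (Multiset.count a) h
    rw [Multiset.count_map, Multiset.count_map] at h1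
    have h2 : ∀ k : Fin D → α, (Multiset.filter (fun i => a = k i) Finset.univ.val).card =
        (Finset.univ.filter (fun i => k i = a)).card := by
      intro k
      rw [Finset.card_def, Finset.filter_val]
      congr 1
      exact Multiset.filter_congr (fun i _ => eq_comm)
    rw [h2, h2] at h1
    exact h1
  refine ⟨Equiv.ofFiberEquiv (fun a => (key a).some), fun i => ?_⟩
  exact Equiv.ofFiberEquiv_map _ _

/-- counting classes by an invariant which determines the class -/
theorem card_quotient_le {X Y : Type*} [Finite Y] (s : Setoid X) (inv : X → Y)
    (h : ∀ x x', inv x = inv x' → s x x') : Nat.card (Quotient s) ≤ Nat.card Y := by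
  refine Nat.card_le_card_of_injective (fun q => inv q.out) (fun q q' hq => ?_)
  have h1 := h _ _ hq
  rw [← Quotient.out_eq q, ← Quotient.out_eq q']
  exact Quotient.sound h1

theorem card_sym_le {α : Type*} [Finite α] (D : ℕ) : Nat.card (Sym α D) = Nat.multichoose (Nat.card α) D := by
  classical
  have := Fintype.ofFinite α
  rw [Nat.card_eq_fintype_card, Nat.card_eq_fintype_card]
  exact Sym.card_sym_eq_multichoose α D

end Pool.Agent.Helper12.MS
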