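import Mathlib

/-!
# Factorials times powers of the number of multisets
-/

set_option autoImplicit false

namespace Pool.Agent.Helper12.MS

theorem fact_multi {a o D e : ℕ} (hD1 : 1 ≤ D) (hD : D ≤ a * o ^ e) :
    D.factorial * (Nat.multichoose o D) ^ e ≤ (a * 4 ^ e * o ^ e) ^ D := by
  rcases Nat.eq_zero_or_pos e with rfl | he
  · simp only [pow_zero, Nat.mul_one] at hD ⊢
    exact (Nat.factorial_le_pow D).trans (Nat.pow_le_pow_left hD D)
  have ho : 1 ≤ o := by
    rcases Nat.eq_zero_or_pos o with rfl | ho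
    · rw [zero_pow (by omega), Nat.mul_zero] at hD
      omega
    · exact ho
  have ha : 1 ≤ a := by
    rcases Nat.eq_zero_or_pos a with rfl | ha
    · rw [Nat.zero_mul] at hD
      omega
    · exact ha
  rcases Nat.lt_or_ge o D with h | h
  · -- few types
    have h1 : Nat.multichoose o D ≤ 4 ^ D := by
      rw [Nat.multichoose_eq]
      calc (o + D - 1).choose D ≤ 2 ^ (o + D - 1) := Nat.choose_le_two_pow _ _
        _ ≤ 2 ^ (2 * D) := Nat.pow_le_pow_right (by norm_num) (by omega)
        _ = 4 ^ D := by rw [pow_mul]; norm_num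
    calc D.factorial * (Nat.multichoose o D) ^ e ≤ (a * o ^ e) ^ D * (4 ^ D) ^ e :=
          Nat.mul_le_mul ((Nat.factorial_le_pow D).trans (Nat.pow_le_pow_left hD D)) (Nat.pow_le_pow_left h1 e)
      _ = (a * 4 ^ e * o ^ e) ^ D := by
          rw [← pow_mul, Nat.mul_comm D e, pow_mul, ← mul_pow]
          congr 1
          ring
  · -- many types
    have h1 : D.factorial * Nat.multichoose o D ≤ (2 * o) ^ D := by
      obtain ⟨m, rfl⟩ : ∃ m, o = m + 1 := ⟨o - 1, by omega⟩
      rw [Nat.multichoose_eq]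
      have h2 : m + 1 + D - 1 = m + D := by omega
      rw [h2, ← Nat.ascFactorial_eq_factorial_mul_choose]
      exact (Nat.ascFactorial_le_pow_add m D).trans (Nat.pow_le_pow_left (by omega) D)
    have h2 : Nat.multichoose o D ≤ (2 * o) ^ D :=
      (Nat.le_mul_of_pos_left _ (Nat.factorial_pos D)).trans h1
    obtain ⟨f, rfl⟩ : ∃ f, e = f + 1 := ⟨e - 1, by omega⟩
    calc D.factorial * (Nat.multichoose o D) ^ (f + 1)
        = (D.factorial * Nat.multichoose o D) * (Nat.multichoose o D) ^ f := by ring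
      _ ≤ (2 * o) ^ D * ((2 * o) ^ D) ^ f := Nat.mul_le_mul h1 (Nat.pow_le_pow_left h2 f)
      _ = ((2 * o) ^ (f + 1)) ^ D := by
          rw [← pow_mul, ← pow_mul, ← pow_add]
          congr 1
          ring
      _ ≤ (a * 4 ^ (f + 1) * o ^ (f + 1)) ^ D := by
          refine Nat.pow_le_pow_left ?_ D
          rw [mul_pow]
          refine Nat.mul_le_mul_right _ ?_
          calc 2 ^ (f + 1) ≤ 4 ^ (f + 1) := Nat.pow_le_pow_left (by norm_num) _
            _ ≤ a * 4 ^ (f + 1) := Nat.le_mul_of_pos_left _ ha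

end Pool.Agent.Helper12.MS
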