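import Pool.Agent.Helper38.MS.Defs
import Pool.Agent.Helper12.MS.Ineq
import Pool.Agent.Helper12.MS.Fib

/-!
# Fixing a set; the peeling inequality
-/

set_option autoImplicit false

namespace Pool.Agent.Helper38.MS

open FirstOrder Pool.Agent.Helper20.Spectra Pool.Agent.Helper31.QD Pool.Agent.Helper38.MC
  Pool.Agent.Helper58.QD Pool.Agent.Helper40.MC Pool.Agent.Helper6.MC Pool.Agent.Helper6.EA

/-- MS7a: the inequality -/
theorem peel_num {D a e o : ℕ} (he : 1 ≤ e) (ho : 1 ≤ o) (hD : D ≤ a * o ^ e) :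
    D.factorial * Nat.multichoose o D ^ e ≤ (a * 4 ^ e * o ^ e) ^ D := by
  rcases Nat.eq_zero_or_pos D with rfl | h
  · simp
  · exact Pool.Agent.Helper12.MS.fact_multi h hD

variable {V : Type} [Fintype V]

open Classical in
theorem card_GS_insert12 (G : Subgroup (Equiv.Perm V)) (A : Finset V) (b : V) :
    (GS G A).card ≤ (orb G b).card * (GS G (insert b A)).card := by
  have hmem : ∀ y, y ∈ orb (G ⊓ fixP (A : Set V)) b ↔ ∃ g ∈ GS G A, g b = y := fun y => mem_orb'
  choose! h hh using fun (y : V) (hy : y ∈ orb (G ⊓ fixP (A : Set V)) b) => (hmem y).1 hy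
  have key : ∀ g ∈ GS G A, g b ∈ orb (G ⊓ fixP (A : Set V)) b := fun g hg => (hmem _).2 ⟨g, hg, rfl⟩
  have key2 : orb (G ⊓ fixP (A : Set V)) b ⊆ orb G b := by
    intro y hy
    obtain ⟨g, hg, h1⟩ := (hmem y).1 hy
    unfold orb
    exact Finset.mem_filter.2 ⟨Finset.mem_univ _, g, (mem_GS.1 hg).1, h1⟩
  refine le_trans ?_ (Nat.mul_le_mul_right _ (Finset.card_le_card key2))
  rw [← Finset.card_product]
  apply Finset.card_le_card_of_injOn (fun g => (g b, (h (g b))⁻¹ * g))
  · intro g hg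
    have hg : g ∈ GS G A := hg
    obtain ⟨h1, h2⟩ := hh _ (key g hg)
    have h3 : (h (g b))⁻¹ * g ∈ GS G A := GS_mul (GS_inv h1) hg
    simp only [Finset.coe_product, Set.mem_prod, Finset.mem_coe]
    refine ⟨key g hg, mem_GS.2 ⟨(mem_GS.1 h3).1, fun a ha => ?_⟩⟩
    rcases Finset.mem_insert.1 ha with rfl | ha
    · rw [Equiv.Perm.mul_apply, Equiv.Perm.inv_eq_iff_eq, h2]
    · exact (mem_GS.1 h3).2 a ha
  · intro g _ g' _ he
    simp only [Prod.mk.injEq] at he
    obtain ⟨e1, e2⟩ := he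
    rw [e1] at e2
    exact mul_left_cancel e2

theorem card_GS_le12 (G : Subgroup (Equiv.Perm V)) (A : Finset V) {s : ℕ} (hs : ∀ x, (orb G x).card ≤ s) :
    (GS G ∅).card ≤ s ^ A.card * (GS G A).card := by
  classical
  induction A using Finset.induction_on with
  | empty => rw [Finset.card_empty, pow_zero, one_mul]
  | insert b B hb ih =>
    refine ih.trans ?_
    rw [Finset.card_insert_of_notMem hb, pow_succ, mul_assoc]
    exact Nat.mul_le_mul_left _ ((card_GS_insert12 G B b).trans (Nat.mul_le_mul_right _ (hs b)))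

theorem ocA_le12 (c : ℕ) (G : Subgroup (Equiv.Perm V)) (A : Finset V) :
    ocA c G ∅ ≤ (2 ^ c) ^ A.card * ocA c G A := by
  classical
  have h0 : Nat.card (({a // a ∈ A} → Fin c → Bool) × Quotient (ocSA c G A)) = (2 ^ c) ^ A.card * ocA c G A := by
    rw [Nat.card_prod]
    congr 1
    rw [Nat.card_eq_fintype_card]
    simp
  rw [← h0]
  unfold ocA
  have : Finite (Quotient (ocSA c G A)) := Quotient.finite _
  refine Pool.Agent.Helper12.MS.card_quotient_le (ocSA c G ∅)
    (fun f => ((fun a : {a // a ∈ A} => f.1 a.1), (Quotient.mk (ocSA c G A)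
      ⟨fun v => if v ∈ A then (fun _ => false) else f.1 v, fun a ha => if_pos ha⟩))) (fun f f' h => ?_)
  obtain ⟨h1, h2⟩ := Prod.mk.inj h
  obtain ⟨g, hg, hg2⟩ := Quotient.exact h2
  refine ⟨g, mem_GS.2 ⟨(mem_GS.1 hg).1, fun x hx => absurd hx (Finset.notMem_empty x)⟩, ?_⟩
  funext v
  show f'.1 v = f.1 (g v)
  by_cases hv : v ∈ A
  · rw [(mem_GS.1 hg).2 v hv]
    exact (congrFun h1 ⟨v, hv⟩).symm
  · have h3 := congrFun hg2 v
    have hgv : g v ∉ A := by
      intro hmem
      have h4 := (mem_GS.1 hg).2 _ hmem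
      have h5 : g v = v := g.injective h4
      rw [h5] at hmem
      exact hv hmem
    have h3' : (if v ∈ A then (fun _ => false) else f'.1 v) = (if g v ∈ A then (fun _ => false) else f.1 (g v)) := h3
    rw [if_neg hv, if_neg hgv] at h3'
    exact h3'

/-- MS5: fixing a set -/
theorem fix_le (c e : ℕ) (G : Subgroup (Equiv.Perm V)) (A : Finset V) {s : ℕ} (hs : ∀ x, (orb G x).card ≤ s) :
    FA c e G ∅ ≤ (s * 2 ^ (c * e)) ^ A.card * FA c e G A := by
  unfold FA
  calc (GS G ∅).card * ocA c G ∅ ^ e ≤ (s ^ A.card * (GS G A).card) * ((2 ^ c) ^ A.card * ocA c G A) ^ e :=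
        Nat.mul_le_mul (card_GS_le12 G A hs) (Nat.pow_le_pow_left (ocA_le12 c G A) e)
    _ = (s * 2 ^ (c * e)) ^ A.card * ((GS G A).card * ocA c G A ^ e) := by
        rw [mul_pow, mul_pow, pow_mul, ← pow_mul (2 ^ c) A.card e, ← pow_mul (2 ^ c) e A.card, Nat.mul_comm A.card e]
        ring

end Pool.Agent.Helper38.MS
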