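import Pool.Agent.Helper12.MS.Fib

/-!
# The number of orbits on colourings when a full class of blocks is peeled off
-/

set_option autoImplicit false

namespace Pool.Agent.Helper12.MS

variable {V Col : Type}

/-- the orbits on colourings -/
def ocS {W : Type} (G : Subgroup (Equiv.Perm W)) (Col : Type) : Setoid (W → Col) where
  r χ χ' := ∃ g ∈ G, ∀ v, χ' (g v) = χ v
  iseqv :=
    { refl := fun χ => ⟨1, G.one_mem, fun _ => rfl⟩
      symm := by
        rintro χ χ' ⟨g, hg, h⟩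
        refine ⟨g⁻¹, G.inv_mem hg, fun v => ?_⟩
        rw [← h, show g (g⁻¹ v) = v from Equiv.apply_symm_apply g v]
      trans := by
        rintro χ χ' χ'' ⟨g, hg, h⟩ ⟨g', hg', h'⟩
        refine ⟨g' * g, G.mul_mem hg' hg, fun v => ?_⟩
        rw [Equiv.Perm.mul_apply, h', h] }

/-- moving the blocks one by one -/
theorem move_blocks {D t : ℕ} (G : Subgroup (Equiv.Perm V)) (u : Fin D × Fin t → V) (hu : Function.Injective u)
    (Γ : Subgroup (Equiv.Perm (Fin t)))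
    (hin : ∀ i, ∀ γ ∈ Γ, ∃ g ∈ G, (∀ a, g (u (i, a)) = u (i, γ a)) ∧ ∀ v, (∀ a, v ≠ u (i, a)) → g v = v)
    (γ : Fin D → Equiv.Perm (Fin t)) (hγ : ∀ i, γ i ∈ Γ) :
    ∃ g ∈ G, (∀ i a, g (u (i, a)) = u (i, γ i a)) ∧ ∀ v, (∀ x, v ≠ u x) → g v = v := by
  classical
  have key : ∀ s : Finset (Fin D), ∃ g ∈ G, (∀ i ∈ s, ∀ a, g (u (i, a)) = u (i, γ i a)) ∧
      (∀ i ∉ s, ∀ a, g (u (i, a)) = u (i, a)) ∧ ∀ v, (∀ x, v ≠ u x) → g v = v := by
    intro s
    induction s using Finset.induction_on with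
    | empty => exact ⟨1, G.one_mem, fun i hi => absurd hi (Finset.notMem_empty i), fun _ _ _ => rfl, fun _ _ => rfl⟩
    | insert j s hj ih =>
      obtain ⟨g, hg, h1, h2, h3⟩ := ih
      obtain ⟨k, hk, k1, k2⟩ := hin j (γ j) (hγ j)
      refine ⟨k * g, G.mul_mem hk hg, fun i hi a => ?_, fun i hi a => ?_, fun v hv => ?_⟩
      · rw [Equiv.Perm.mul_apply]
        rcases Finset.mem_insert.1 hi with rfl | hi
        · rw [h2 i hj, k1]
        · rw [h1 i hi]
          refine k2 _ (fun b hb => ?_)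
          have : i = j := congrArg Prod.fst (hu hb)
          exact hj (this ▸ hi)
      · rw [Equiv.Perm.mul_apply, h2 i (fun h => hi (Finset.mem_insert_of_mem h))]
        refine k2 _ (fun b hb => ?_)
        have : i = j := congrArg Prod.fst (hu hb)
        exact hi (this ▸ Finset.mem_insert_self j s)
      · rw [Equiv.Perm.mul_apply, h3 v hv]
        exact k2 v (fun a => hv (j, a))
  obtain ⟨g, hg, h1, _, h3⟩ := key Finset.univ
  exact ⟨g, hg, fun i a => h1 i (Finset.mem_univ i) a, h3⟩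

open Classical in
/-- MS6b -/
theorem peel_oc [Finite V] [Finite Col] {D t : ℕ} (G : Subgroup (Equiv.Perm V)) (u : Fin D × Fin t → V)
    (hu : Function.Injective u) (Γ : Subgroup (Equiv.Perm (Fin t)))
    (hperm : ∀ σ : Equiv.Perm (Fin D), ∃ g ∈ G, (∀ i a, g (u (i, a)) = u (σ i, a)) ∧ ∀ v, (∀ x, v ≠ u x) → g v = v)
    (hin : ∀ i, ∀ γ ∈ Γ, ∃ g ∈ G, (∀ a, g (u (i, a)) = u (i, γ a)) ∧ ∀ v, (∀ a, v ≠ u (i, a)) → g v = v)
    {W : Type} [Finite W] (r : W → V) (hr : ∀ v, (∃ x, v = u x) ∨ ∃ w, v = r w) (Gr : Subgroup (Equiv.Perm W))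
    (hrest : ∀ ρ ∈ Gr, ∃ g ∈ G, (∀ w, g (r w) = r (ρ w)) ∧ ∀ x, g (u x) = u x) :
    Nat.card (Quotient (ocS G Col)) ≤
      Nat.multichoose (Nat.card (Quotient (ocS Γ Col))) D * Nat.card (Quotient (ocS Gr Col)) := by
  have : Finite (Quotient (ocS Γ Col)) := Quotient.finite _
  have : Finite (Quotient (ocS Gr Col)) := Quotient.finite _
  have : Finite (Sym (Quotient (ocS Γ Col)) D) := by
    have := Fintype.ofFinite (Quotient (ocS Γ Col))
    infer_instance
  rw [← card_sym_le, ← Nat.card_prod]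
  let q : (V → Col) → Fin D → Quotient (ocS Γ Col) := fun χ i => Quotient.mk _ (fun a => χ (u (i, a)))
  have hcard : ∀ χ, (Finset.univ.val.map (q χ)).card = D := by
    intro χ
    rw [Multiset.card_map, ← Finset.card_def, Finset.card_univ, Fintype.card_fin]
  refine card_quotient_le (ocS G Col)
    (fun χ => ((⟨Finset.univ.val.map (q χ), hcard χ⟩ : Sym (Quotient (ocS Γ Col)) D),
      (Quotient.mk _ (fun w => χ (r w)) : Quotient (ocS Gr Col)))) (fun χ χ' h => ?_)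
  obtain ⟨h1, h2⟩ := Prod.mk.inj h
  have h1' : Finset.univ.val.map (q χ) = Finset.univ.val.map (q χ') := congrArg Subtype.val h1
  obtain ⟨σ, hσ⟩ := exists_perm_of_map_eq _ _ h1'
  have h3 : ∀ i, ∃ γ ∈ Γ, ∀ a, χ' (u (σ i, γ a)) = χ (u (i, a)) := fun i => Quotient.exact (hσ i).symm
  choose γ hγ hγ2 using h3
  obtain ⟨ρ, hρ, hρ2⟩ : ∃ ρ ∈ Gr, ∀ w, χ' (r (ρ w)) = χ (r w) := Quotient.exact h2
  obtain ⟨g1, hg1, g11, g12⟩ := hperm σ
  obtain ⟨g2, hg2, g21, g22⟩ := move_blocks G u hu Γ hin (fun i => γ (σ⁻¹ i)) (fun i => hγ _)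
  obtain ⟨g3, hg3, g31, g32⟩ := hrest ρ hρ
  refine ⟨g3 * (g2 * g1), G.mul_mem hg3 (G.mul_mem hg2 hg1), fun v => ?_⟩
  rw [Equiv.Perm.mul_apply, Equiv.Perm.mul_apply]
  by_cases hv : ∃ x, v = u x
  · obtain ⟨⟨i, a⟩, rfl⟩ := hv
    rw [g11, g21, g32, show σ⁻¹ (σ i) = i from Equiv.symm_apply_apply σ i, hγ2]
  · obtain ⟨w, rfl⟩ := (hr v).resolve_left hv
    push Not at hv
    rw [g12 _ hv, g22 _ hv, g31, hρ2]

/-- at least `t + 1` orbits -/
theorem succ_le_oc {t : ℕ} (Γ : Subgroup (Equiv.Perm (Fin t))) [Finite Col] {b₀ b₁ : Col} (hb : b₀ ≠ b₁) :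
    t + 1 ≤ Nat.card (Quotient (ocS Γ Col)) := by
  classical
  have : Finite (Quotient (ocS Γ Col)) := Quotient.finite _
  rw [← Nat.card_fin (t + 1)]
  refine Nat.card_le_card_of_injective
    (fun j : Fin (t + 1) => (Quotient.mk (ocS Γ Col) (fun a : Fin t => if (a : ℕ) < j then b₁ else b₀))) ?_
  intro j j' h
  obtain ⟨g, hg, h1⟩ : ∃ g ∈ Γ, ∀ v, (if ((g v : Fin t) : ℕ) < j' then b₁ else b₀) = (if (v : ℕ) < j then b₁ else b₀) :=
    Quotient.exact h
  have hc : ∀ k : Fin (t + 1), (Finset.univ.filter (fun a : Fin t => (a : ℕ) < k)).card = k := by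
    intro k
    have := Fin.card_filter_val_lt (n := t) (m := (k : ℕ))
    rw [this]
    omega
  have h2 : (Finset.univ.filter (fun a : Fin t => (a : ℕ) < j)).card =
      (Finset.univ.filter (fun a : Fin t => (a : ℕ) < j')).card := by
    refine Finset.card_bij (fun a _ => g a) (fun a ha => ?_) (fun a _ b _ hab => g.injective hab) (fun b hb' => ?_)
    · have h3 := h1 a
      rw [if_pos (Finset.mem_filter.1 ha).2] at h3
      refine Finset.mem_filter.2 ⟨Finset.mem_univ _, ?_⟩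
      by_contra hcon
      rw [if_neg hcon] at h3
      exact hb h3
    · refine ⟨g⁻¹ b, ?_, Equiv.apply_symm_apply g b⟩
      have h3 := h1 (g⁻¹ b)
      rw [show g (g⁻¹ b) = b from Equiv.apply_symm_apply g b, if_pos (Finset.mem_filter.1 hb').2] at h3
      refine Finset.mem_filter.2 ⟨Finset.mem_univ _, ?_⟩
      by_contra hcon
      rw [if_neg hcon] at h3
      exact hb h3.symm
  rw [hc, hc] at h2
  exact Fin.ext h2

end Pool.Agent.Helper12.MS
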